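import Pool.Agent.Helper65.HC.Goals
import Pool.Agent.Helper11.Ram.MCOR

/-!
# Packet HC-WCS: circuits on words and circuits on numbers
-/

namespace Pool.Agent.Helper72.HC

open Pool.Agent.Helper65.LinSpace Pool.Agent.Helper78.Mpc Pool.Agent.Helper28.Ram Finset Filter
open Pool.Agent.Helper65.HC
open Pool.Agent.Helper11.Ram (capN_zero capN_num_le accN_zero)

/-! ### The values of the gates as digits -/

theorem W_tab (m : Pool.Agent.Helper65.HC.Mach) (n : ℕ) : m.W n = tab (2 ^ m.σ) n m.val := by
  induction n with
  | zero => rfl
  | succ n ih =>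
    rw [tab_succ, ← ih, ← pow_mul, mul_comm (m.val n)]
    rfl

theorem dig_W (m : Pool.Agent.Helper65.HC.Mach) (h : ∀ i q, m.out i q < 2 ^ m.σ) {i n : ℕ} (hi : i < n) :
    dig (2 ^ m.σ) (m.W n) i = m.val i := by
  rw [W_tab]
  exact dig_tab (fun i _ => h _ _) hi

theorem vals_eq (A : Circ) (w y : List Bool) {i j : ℕ} (h : j < i) :
    A.vals w y i j = A.val w y j := by
  induction i with
  | zero => omega
  | succ i ih =>
    show Function.update (A.vals w y i) i (A.gate w y i (A.vals w y i)) j = _
    by_cases hj : j = i
    · subst hj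
      rw [Function.update_self]
      rfl
    · rw [Function.update_of_ne hj]
      exact ih (by omega)

theorem scan_succ (A : Circ) (n i : ℕ) (v : ℕ → List Bool) (j : ℕ) :
    A.scan n i v (j + 1) =
      A.step (sd n.bits ++ (sd i.bits ++ (sd j.bits ++ (sd (A.scan n i v j) ++ v j)))) := rfl

theorem sc_succ (m : Pool.Agent.Helper65.HC.Mach) (i V n : ℕ) :
    m.sc i V (n + 1) = m.step i n (m.sc i V n) (dig (2 ^ m.σ) V n) := rfl

theorem mach_step (P : Prm) (B K : ℕ) : (P.mach B K).step = P.step := rfl

theorem mach_out (P : Prm) (B K : ℕ) : (P.mach B K).out = P.out := rfl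

theorem mach_sc_zero (P : Prm) (B K i V : ℕ) : (P.mach B K).sc i V 0 = num [] := rfl

theorem val_def (m : Pool.Agent.Helper65.HC.Mach) (i : ℕ) :
    m.val i = m.out i (m.sc i (m.W i) i) := rfl

theorem length_bits_le {i t : ℕ} (h : i < 2 ^ t) : i.bits.length ≤ t := by
  rw [Nat.size_eq_bits_len]
  exact Nat.size_le.2 h

/-- The facts which are used. -/
structure Facts (A : Circ) (w y : List Bool) (P : Prm) (t : ℕ) : Prop where
  stepZ : ∀ i j q v, q * v = 0 → P.step i j q v = 0
  step : ∀ i j, i < 2 ^ t → j < 2 ^ t → ∀ q v : List Bool, q.length ≤ P.S → v.length ≤ P.S →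
    P.step i j (num q) (num v) =
      if (A.step (sd w.length.bits ++ (sd i.bits ++ (sd j.bits ++ (sd q ++ v))))).length ≤ P.S then
        num (A.step (sd w.length.bits ++ (sd i.bits ++ (sd j.bits ++ (sd q ++ v))))) else 0
  outS : ∀ i q b, (w ++ y)[i]? = some b → P.out i q = capN P.S (num [false, b])
  outZ : ∀ i, (w ++ y)[i]? = none → P.out i 0 = 0
  out : ∀ i, i < 2 ^ t → (w ++ y)[i]? = none → ∀ q : List Bool, q.length ≤ P.S →
    P.out i (num q) =
      if (A.out (sd w.length.bits ++ (sd i.bits ++ q))).length ≤ P.S then
        num (A.out (sd w.length.bits ++ (sd i.bits ++ q))) else 0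

theorem capN_ite (S : ℕ) (u : List Bool) :
    capN S (if u.length ≤ S then num u else 0) = if u.length ≤ S then num u else 0 := by
  split_ifs with h
  · exact capN_num h
  · exact capN_zero S

section

variable {A : Circ} {w y : List Bool} {P : Prm} {t : ℕ} (F : Facts A w y P t) (B K : ℕ)

theorem out_lt : ∀ i q, (P.mach B K).out i q < 2 ^ (P.mach B K).σ :=
  fun _ _ => capN_lt P.S _

include F in
theorem sound (i : ℕ) (hi : i < 2 ^ t) : (P.mach B K).val i ≠ 0 →
    (P.mach B K).val i = num (A.val w y i) ∧ (A.val w y i).length ≤ P.S := by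
  induction i using Nat.strong_induction_on with
  | _ i ih =>
    intro hne
    have hval : (P.mach B K).val i =
        P.out i ((P.mach B K).sc i ((P.mach B K).W i) i) := by
      rw [val_def, mach_out]
    have hA : A.val w y i = A.gate w y i (A.vals w y i) := rfl
    rcases hb : (w ++ y)[i]? with _ | b
    · -- not a letter
      have hg : A.val w y i = A.out (sd w.length.bits ++ (sd i.bits ++
          A.scan w.length i (A.vals w y i) i)) := by
        rw [hA]
        unfold Circ.gate
        rw [hb]
      have hsc : ∀ j ≤ i, (P.mach B K).sc i ((P.mach B K).W i) j ≠ 0 →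
          (P.mach B K).sc i ((P.mach B K).W i) j =
            num (A.scan w.length i (A.vals w y i) j) ∧
          (A.scan w.length i (A.vals w y i) j).length ≤ P.S := by
        intro j
        induction j with
        | zero => exact fun _ _ => ⟨mach_sc_zero P B K _ _, Nat.zero_le _⟩
        | succ j ihj =>
          intro hj hne'
          have h1 : (P.mach B K).sc i ((P.mach B K).W i) (j + 1) =
              P.step i j ((P.mach B K).sc i ((P.mach B K).W i) j) ((P.mach B K).val j) := by
            rw [sc_succ, dig_W _ (out_lt B K) (by omega), mach_step]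
          rw [h1] at hne' ⊢
          have h2 : (P.mach B K).sc i ((P.mach B K).W i) j * (P.mach B K).val j ≠ 0 :=
            fun h => hne' (F.stepZ _ _ _ _ h)
          obtain ⟨e1, l1⟩ := ihj (by omega) (left_ne_zero_of_mul h2)
          obtain ⟨e2, l2⟩ := ih j (by omega) (by omega) (right_ne_zero_of_mul h2)
          rw [e1, e2, F.step i j hi (by omega) _ _ l1 l2] at hne' ⊢
          rw [scan_succ, vals_eq A w y (show j < i by omega)]
          split_ifs at hne' ⊢ with h3
          · exact ⟨rfl, h3⟩
          · exact absurd rfl hne'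
      rw [hval] at hne ⊢
      have hq : (P.mach B K).sc i ((P.mach B K).W i) i ≠ 0 := by
        intro h
        rw [h, F.outZ i hb] at hne
        exact hne rfl
      obtain ⟨e1, l1⟩ := hsc i le_rfl hq
      rw [e1, F.out i hi hb _ l1] at hne ⊢
      rw [hg]
      split_ifs at hne ⊢ with h3
      · exact ⟨rfl, h3⟩
      · exact absurd rfl hne
    · have hg : A.val w y i = [false, b] := by
        rw [hA]
        unfold Circ.gate
        rw [hb]
      rw [hval, F.outS i _ b hb] at hne ⊢
      rw [hg]
      exact ⟨capN_ne hne, capN_num_le hne⟩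

include F in
theorem complete {r : ℕ} (hr : r < 2 ^ t) (hfit : A.Fits w y r P.S) (i : ℕ) (hi : i ≤ r) :
    (P.mach B K).val i = num (A.val w y i) := by
  induction i using Nat.strong_induction_on with
  | _ i ih =>
    have hval : (P.mach B K).val i =
        P.out i ((P.mach B K).sc i ((P.mach B K).W i) i) := by
      rw [val_def, mach_out]
    have hA : A.val w y i = A.gate w y i (A.vals w y i) := rfl
    obtain ⟨hlen, hst⟩ := hfit i hi
    rcases hb : (w ++ y)[i]? with _ | b
    · have hg : A.val w y i = A.out (sd w.length.bits ++ (sd i.bits ++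
          A.scan w.length i (A.vals w y i) i)) := by
        rw [hA]
        unfold Circ.gate
        rw [hb]
      have hst' := hst (List.getElem?_eq_none_iff.1 hb)
      have hsc : ∀ j ≤ i, (P.mach B K).sc i ((P.mach B K).W i) j =
            num (A.scan w.length i (A.vals w y i) j) := by
        intro j
        induction j with
        | zero => exact fun _ => mach_sc_zero P B K _ _
        | succ j ihj =>
          intro hj
          have h1 : (P.mach B K).sc i ((P.mach B K).W i) (j + 1) =
              P.step i j ((P.mach B K).sc i ((P.mach B K).W i) j) ((P.mach B K).val j) := by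
            rw [sc_succ, dig_W _ (out_lt B K) (by omega), mach_step]
          have l3 := hst' (j + 1) hj
          rw [scan_succ, vals_eq A w y (show j < i by omega)] at l3
          rw [h1, ihj (by omega), ih j (by omega) (by omega),
            F.step i j (by omega) (by omega) _ _ (hst' j (by omega)) (hfit j (by omega)).1,
            if_pos l3, scan_succ, vals_eq A w y (show j < i by omega)]
      rw [hg] at hlen ⊢
      rw [hval, hsc i le_rfl, F.out i (by omega) hb _ (hst' i le_rfl), if_pos hlen]
    · have hg : A.val w y i = [false, b] := by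
        rw [hA]
        unfold Circ.gate
        rw [hb]
      rw [hg] at hlen ⊢
      rw [hval, F.outS i _ b hb, capN_num hlen]

end

theorem wcs : WCS_stmt := by
  intro A
  obtain ⟨eS, cS, hS⟩ := fnN_spec A.step_lin
  obtain ⟨eO, cO, hO⟩ := fnN_spec A.out_lin
  refine ⟨eS, eO, cS + cO, ?_⟩
  intro w y P t B K heS heO hx hy hwt hΛ hβ hM
  have hlog : Nat.log 2 P.x = w.length := by rw [hx, log_num]
  have hcat : catN P.x P.y = num (w ++ y) := by rw [hx, hy, catN_num]
  have F : Facts A w y P t := by
    refine ⟨?_, ?_, ?_, ?_, ?_⟩
    · intro i j q v h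
      unfold Prm.step
      rw [h, ifz_zero, capN_zero]
    · intro i j hi hj q v hq hv
      unfold Prm.step
      have hne : num q * num v ≠ 0 := (Nat.mul_pos (num_pos q) (num_pos v)).ne'
      have hlenu : (sd w.length.bits ++ (sd i.bits ++ (sd j.bits ++ (sd q ++ v)))).length ≤
          3 * P.S + 6 * t + 4 := by
        have a1 := length_bits_le hwt
        have a2 := length_bits_le hi
        have a3 := length_bits_le hj
        simp only [List.length_append, length_sd]
        omega
      rw [ifz_ne hne, hlog, bitsN_eq, bitsN_eq, bitsN_eq, sdN_num, sdN_num, sdN_num, sdN_num,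
        catN_num, catN_num, catN_num, catN_num, heS,
        hS _ P.S P.Λ P.β P.M ?_ ?_ hM, capN_ite]
      · refine le_trans (Nat.mul_le_mul (Nat.le_add_right cS cO) ?_) hΛ
        omega
      · omega
    · intro i q b hb
      unfold Prm.out
      rw [hcat, letN_num, hb]
      cases b <;> rfl
    · intro i hb
      unfold Prm.out
      rw [hcat, letN_num, hb]
      show capN P.S (ifz 0 _ _) = 0
      rw [ifz_zero, ifz_zero, capN_zero]
    · intro i hi hb q hq
      unfold Prm.out
      have hlenu : (sd w.length.bits ++ (sd i.bits ++ q)).length ≤ 3 * P.S + 6 * t + 4 := by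
        have a1 := length_bits_le hwt
        have a2 := length_bits_le hi
        simp only [List.length_append, length_sd]
        omega
      have hne : num q ≠ 0 := (num_pos q).ne'
      rw [hcat, letN_num, hb]
      show capN P.S (ifz 0 _ _) = _
      rw [ifz_zero, ifz_ne hne, hlog, bitsN_eq, bitsN_eq, sdN_num, sdN_num,
        catN_num, catN_num, heO, hO _ P.S P.Λ P.β P.M ?_ ?_ hM, capN_ite]
      · refine le_trans (Nat.mul_le_mul (Nat.le_add_left cO cS) ?_) hΛ
        omega
      · omega
  constructor
  · intro i hi hacc
    have hne : (P.mach B K).val i ≠ 0 := by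
      intro h
      rw [h, accN_zero] at hacc
      exact zero_ne_one hacc
    rw [(sound F B K i hi hne).1] at hacc
    exact (accN_num _).1 hacc
  · intro r hr hfit hacc
    rw [complete F B K hr hfit r le_rfl]
    exact (accN_num _).2 hacc

end Pool.Agent.Helper72.HC
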